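import Pool.Agent.R190.Trk.FinalQ2

set_option autoImplicit false

namespace Pool.Agent.Results.MP_93c926_an.TrackingCostLowerBound

open Pool.Agent.R190.Trk

/-- Full negative answer to Q2 of MP_93c926_an, for all `L, T > 0`, with the target `w(t) = t`:
the cost satisfies `K_w(ε) ≥ (2 ε² / L) (exp(L² / (8 ε)) - 1)` for `0 < ε < T / 2`, hence for all
`C, A` there is `ε > 0` with `K_w(ε) > A exp(C ε^{-1/2})`. -/
theorem result {L T : ℝ} (hL : 0 < L) (hT : 0 < T) :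
    (∀ ε : ℝ, 0 < ε → 2 * ε < T →
      ((2 * ε ^ 2 / L * (Real.exp (L ^ 2 / (8 * ε)) - 1) : ℝ) : EReal) ≤
        Kw L T (fun t => t) ε) ∧
    ∀ C A : ℝ, ∃ ε > 0, ((A * Real.exp (C / Real.sqrt ε) : ℝ) : EReal) <
      Kw L T (fun t => t) ε :=
  mainQ2 hL hT

end Pool.Agent.Results.MP_93c926_an.TrackingCostLowerBound
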